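import Mathlib
import Pool.Agent.X286.Win.Gen
import Pool.Agent.Results.MP_7ecdd4_nt.FewExceptions
import Pool.Agent.Results.MP_7ecdd4_nt.CountByRadicalSharp

/-!
# The strong n-conjecture without exceptions, in windows

For almost all real numbers `a > 0` (and outside a set of small Hausdorff dimension) the inequality
`max |x_j| ≤ rad(x_1 ⋯ x_n) ^ M` holds for ALL admissible `n`-tuples whose height `max |x_j|` is in
the windows `|max |x_j| - a v k| ≤ (v k) ^ θ`, for all but finitely many `k`, with exponents `M`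
below `1`, and outside an even smaller set with one exponent `M` for all `n`. In windows for the
radical there are no tuples at all with `max |x_j| ≤ exp((log rad) ^ 2)`.
-/

set_option autoImplicit false

namespace Pool.Agent.Results.MP_7ecdd4_nt.NoExceptionsInWindows

open MeasureTheory Filter Topology Finset

/-- the exponent of convergence of the sequence `v` is at most `τ` -/
def ExpLe (v : ℕ → ℝ) (τ : ℝ) : Prop := ∀ t : ℝ, τ < t → Summable (fun n : ℕ => (v n) ^ (-t))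

/-- `x` is an admissible tuple: non-zero pairwise coprime integers with sum zero. -/
def Admissible {n : ℕ} (x : Fin n → ℤ) : Prop :=
  (∀ i, x i ≠ 0) ∧ (∀ i j, i ≠ j → Int.gcd (x i) (x j) = 1) ∧ ∑ i, x i = 0

/-- The radical of `x_1 ⋯ x_n`: the product of the primes dividing it. -/
def rad {n : ℕ} (x : Fin n → ℤ) : ℕ := ∏ p ∈ (∏ i, x i).natAbs.primeFactors, p

/-- The height: the largest `|x_j|`. -/
def height {n : ℕ} (x : Fin n → ℤ) : ℕ := univ.sup fun i => (x i).natAbs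

/-- the violations of the inequality with exponent `M` -/
def Ex (n : ℕ) (M : ℝ) : Set (Fin n → ℤ) :=
  {x | Admissible x ∧ ((rad x : ℕ) : ℝ) ^ M < (height x : ℝ)}

theorem rad_pos {n : ℕ} (x : Fin n → ℤ) : (1 : ℝ) ≤ (rad x : ℝ) := by
  have h : 0 < rad x := Finset.prod_pos fun p hp => (Nat.prime_of_mem_primeFactors hp).pos
  exact_mod_cast h

theorem height_le {n : ℕ} (x : Fin n → ℤ) {B : ℝ} (hB : 0 ≤ B) :
    (height x : ℝ) ≤ B ↔ ∀ i, |(x i : ℝ)| ≤ B := by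
  rw [← Nat.le_floor_iff hB]
  unfold height
  rw [Finset.sup_le_iff]
  constructor
  · intro h i
    have h1 := (Nat.le_floor_iff hB).1 (h i (mem_univ i))
    rwa [Nat.cast_natAbs, Int.cast_abs] at h1
  · intro h i _
    rw [Nat.le_floor_iff hB, Nat.cast_natAbs, Int.cast_abs]
    exact h i

theorem finite_box {n : ℕ} (B : ℝ) : {x : Fin n → ℤ | (height x : ℝ) ≤ B}.Finite := by
  refine (CountByRadicalSharp.finite_box n (max B 0)).subset fun x hx => ?_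
  exact (height_le x (le_max_right _ _)).1 (hx.trans (le_max_left _ _))

theorem adm_iff {n : ℕ} (x : Fin n → ℤ) : Admissible x ↔ CountByRadicalSharp.Admissible x := by
  unfold Admissible CountByRadicalSharp.Admissible
  simp only [Int.isCoprime_iff_gcd_eq_one]

theorem sparse4 {n : ℕ} (hn : 4 ≤ n) {M : ℝ} (hM : 10 / (3 * (n : ℝ) - 2) ≤ M) :
    Pool.Agent.X286.Win.Sparse (Ex n M) (fun x => (height x : ℝ))
      ((3 * (n : ℝ) - 5) / ((3 * (n : ℝ) - 2) * M)) := by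
  have hn' : (4 : ℝ) ≤ n := by exact_mod_cast hn
  have hM0 : 0 < M := lt_of_lt_of_le (div_pos (by norm_num) (by linarith)) hM
  have hs : 0 ≤ (3 * (n : ℝ) - 5) / ((3 * (n : ℝ) - 2) * M) :=
    div_nonneg (by linarith) (mul_nonneg (by linarith) hM0.le)
  intro ε hε
  obtain ⟨C, hC⟩ := FewExceptions.result n hn M hM ε hε
  refine ⟨|C|, fun X hX => ⟨(finite_box X).subset fun x hx => hx.2, ?_⟩⟩
  have hX0 : 0 ≤ X := by linarith
  have hN : 1 ≤ ⌊X⌋₊ := Nat.le_floor (by simpa using hX)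
  have hset : {x | x ∈ Ex n M ∧ (height x : ℝ) ≤ X} =
      {x : Fin n → ℤ | FewExceptions.Admissible x ∧ (∀ i, |x i| ≤ ((⌊X⌋₊ : ℕ) : ℤ)) ∧
        ¬ FewExceptions.Holds M x} := by
    ext x
    have h1 : (height x : ℝ) ≤ X ↔ ∀ i, |x i| ≤ ((⌊X⌋₊ : ℕ) : ℤ) := by
      rw [← Nat.le_floor_iff hX0]
      unfold height
      rw [Finset.sup_le_iff]
      constructor
      · intro h i
        have := h i (mem_univ i)
        rw [Int.abs_eq_natAbs]
        exact_mod_cast this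
      · intro h i _
        have := h i
        rw [Int.abs_eq_natAbs] at this
        exact_mod_cast this
    have h2 : ((rad x : ℕ) : ℝ) ^ M < (height x : ℝ) ↔ ¬ FewExceptions.Holds M x := by
      rw [← not_le, not_iff_not]
      unfold FewExceptions.Holds
      rw [height_le x (Real.rpow_nonneg (Nat.cast_nonneg _) _)]
      rfl
    constructor
    · rintro ⟨⟨h3, h4⟩, h5⟩
      exact ⟨h3, h1.1 h5, h2.1 h4⟩
    · rintro ⟨h3, h5, h4⟩
      exact ⟨⟨h3, h2.2 h4⟩, h1.2 h5⟩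
  rw [hset]
  refine (hC ⌊X⌋₊ hN).trans ?_
  calc C * (⌊X⌋₊ : ℝ) ^ ((3 * (n : ℝ) - 5) / ((3 * (n : ℝ) - 2) * M) + ε) ≤
        |C| * (⌊X⌋₊ : ℝ) ^ ((3 * (n : ℝ) - 5) / ((3 * (n : ℝ) - 2) * M) + ε) :=
        mul_le_mul_of_nonneg_right (le_abs_self C) (by positivity)
    _ ≤ _ := mul_le_mul_of_nonneg_left
      (Real.rpow_le_rpow (by positivity) (Nat.floor_le hX0) (by linarith)) (abs_nonneg C)

theorem sparse3 {n : ℕ} (hn : 3 ≤ n) {M : ℝ} (hM : 0 < M) :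
    Pool.Agent.X286.Win.Sparse (Ex n M) (fun x => (height x : ℝ)) ((((n : ℝ) - 1) / n) / M) := by
  intro ε hε
  obtain ⟨η, hη, C, hC, h⟩ := (CountByRadicalSharp.result n hn).1 (ε * M) (by positivity)
  refine ⟨C * Real.exp M ^ (((n : ℝ) - 1) / n + ε * M), fun B hB => ?_⟩
  have hB0 : 0 < B := by linarith
  have hn0 : (3 : ℝ) ≤ n := by exact_mod_cast hn
  have hs0 : 0 ≤ ((n : ℝ) - 1) / n + ε * M := by
    have : 0 ≤ ((n : ℝ) - 1) / n := div_nonneg (by linarith) (by linarith)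
    positivity
  obtain ⟨X, hX⟩ : ∃ X, X = B ^ (1 / M) := ⟨_, rfl⟩
  have hX1 : 1 ≤ X := by rw [hX]; exact Real.one_le_rpow hB (by positivity)
  have hX0 : 0 < X := by linarith
  have hXM : X ^ M = B := by
    rw [hX, ← Real.rpow_mul hB0.le, one_div_mul_cancel hM.ne', Real.rpow_one]
  have he : 1 ≤ Real.exp M := Real.one_le_exp hM.le
  have hXe : 1 ≤ X * Real.exp M := by nlinarith
  obtain ⟨h1, h2⟩ := h (X * Real.exp M) hXe
  have hlog : Real.log (X * Real.exp M) = Real.log X + M := by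
    rw [Real.log_mul hX0.ne' (Real.exp_pos _).ne', Real.log_exp]
  have hL : 0 ≤ Real.log X := Real.log_nonneg hX1
  have hBe : B ≤ Real.exp ((1 + Real.log (X * Real.exp M)) ^ (2 + η)) := by
    rw [← Real.log_le_iff_le_exp hB0, ← hXM, Real.log_rpow hX0, hlog]
    have h3 : (1 + (Real.log X + M)) ^ (2 : ℝ) ≤ (1 + (Real.log X + M)) ^ (2 + η) :=
      Real.rpow_le_rpow_of_exponent_le (by linarith) (by linarith)
    rw [Real.rpow_two] at h3
    nlinarith [mul_nonneg hL hM.le]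
  have hsub : {x | x ∈ Ex n M ∧ (height x : ℝ) ≤ B} ⊆
      CountByRadicalSharp.Tuples n (X * Real.exp M)
        (Real.exp ((1 + Real.log (X * Real.exp M)) ^ (2 + η))) := by
    rintro x ⟨⟨h3, h4⟩, h5⟩
    refine ⟨(adm_iff x).1 h3, ?_, fun i => ((height_le x hB0.le).1 h5 i).trans hBe⟩
    have h6 : (rad x : ℝ) ^ M ≤ X ^ M := by
      rw [hXM]
      exact h4.le.trans h5
    have h7 : (rad x : ℝ) ≤ X := by
      by_contra hcon
      push Not at hcon
      exact absurd h6 (not_le.2 (Real.rpow_lt_rpow hX0.le hcon hM))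
    have h8 : (CountByRadicalSharp.radical x : ℝ) = (rad x : ℝ) := rfl
    rw [h8]
    nlinarith
  refine ⟨h1.subset hsub, ?_⟩
  calc (({x | x ∈ Ex n M ∧ (height x : ℝ) ≤ B}.ncard : ℕ) : ℝ) ≤ _ := by
        exact_mod_cast Set.ncard_le_ncard hsub h1
    _ ≤ _ := h2
    _ = C * Real.exp M ^ (((n : ℝ) - 1) / n + ε * M) * X ^ (((n : ℝ) - 1) / n + ε * M) := by
      rw [Real.mul_rpow hX0.le (Real.exp_pos _).le]
      ring
    _ = C * Real.exp M ^ (((n : ℝ) - 1) / n + ε * M) * B ^ ((((n : ℝ) - 1) / n) / M + ε) := by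
      rw [hX, ← Real.rpow_mul hB0.le]
      congr 2
      field_simp

/-- all lengths at once -/
theorem sparse_all (i : {n : ℕ // 3 ≤ n}) {M : ℝ} (hM : 0 < M) :
    Pool.Agent.X286.Win.Sparse (Ex i.1 M) (fun x => (height x : ℝ)) (1 / M) := by
  refine Pool.Agent.X286.Win.sparse_mono (div_le_div_of_nonneg_right ?_ hM.le) (sparse3 i.2 hM)
  have h : (3 : ℝ) ≤ (i.1 : ℝ) := by exact_mod_cast i.2
  rw [div_le_one (by linarith)]
  linarith

/-- the radicals -/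
theorem sparseR {n : ℕ} (hn : 3 ≤ n) :
    Pool.Agent.X286.Win.Sparse
      {x : Fin n → ℤ | Admissible x ∧ (height x : ℝ) ≤ Real.exp (Real.log (rad x) ^ 2)}
      (fun x => (rad x : ℝ)) (((n : ℝ) - 1) / n) := by
  intro ε hε
  obtain ⟨η, hη, C, hC, h⟩ := (CountByRadicalSharp.result n hn).1 ε hε
  refine ⟨C, fun X hX => ?_⟩
  obtain ⟨h1, h2⟩ := h X hX
  have hsub : {x | x ∈ {x : Fin n → ℤ | Admissible x ∧
      (height x : ℝ) ≤ Real.exp (Real.log (rad x) ^ 2)} ∧ (rad x : ℝ) ≤ X} ⊆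
      CountByRadicalSharp.Tuples n X (Real.exp ((1 + Real.log X) ^ (2 + η))) := by
    rintro x ⟨⟨h3, h4⟩, h5⟩
    refine ⟨(adm_iff x).1 h3, h5, (height_le x (Real.exp_pos _).le).1 (h4.trans ?_)⟩
    rw [Real.exp_le_exp]
    have h6 : 0 ≤ Real.log (rad x) := Real.log_nonneg (rad_pos x)
    have h7 : Real.log (rad x) ≤ Real.log X :=
      Real.log_le_log (by linarith [rad_pos x]) h5
    have h8 : (1 + Real.log X) ^ (2 : ℝ) ≤ (1 + Real.log X) ^ (2 + η) :=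
      Real.rpow_le_rpow_of_exponent_le (by linarith) (by linarith)
    rw [Real.rpow_two] at h8
    nlinarith
  refine ⟨h1.subset hsub, le_trans ?_ h2⟩
  exact_mod_cast Set.ncard_le_ncard hsub h1

/-- Let `v k ≥ 1` have exponent of convergence at most `τ ≥ 0`, and let `θ < 1`.
(1) For `n ≥ 4` and `M ≥ 10 / (3 n - 2)` there is a set `E` of Hausdorff dimension at most
`((3 n - 5) / ((3 n - 2) M) + τ) / (1 - θ)` such that for all `a > 0` outside `E`, for all but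
finitely many `k`, all admissible `n`-tuples with `|max |x_j| - a v k| ≤ (v k) ^ θ` satisfy
`max |x_j| ≤ rad(x_1 ⋯ x_n) ^ M`.
(2) For `M > 0` there is one set `E` of dimension at most `(1 / M + τ) / (1 - θ)` that serves for
all `n ≥ 3`.
(3) There is a set `E` of dimension at most `τ / (1 - θ)` such that for all `a > 0` outside `E`
there is ONE exponent `M` such that for all `n ≥ 3`, for all but finitely many `k`, all admissible
`n`-tuples with `|max |x_j| - a v k| ≤ (v k) ^ θ` satisfy `max |x_j| ≤ rad(x_1 ⋯ x_n) ^ M`.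
(4) For `n ≥ 3` there is a set `E` of dimension at most `((n - 1) / n + τ) / (1 - θ)` such that for
all `a > 0` outside `E`, for all but finitely many `k`, every admissible `n`-tuple with
`|rad(x_1 ⋯ x_n) - a v k| ≤ (v k) ^ θ` has `max |x_j| > exp((log rad(x_1 ⋯ x_n)) ^ 2)`.
(5), (6) The powers of `k + 1` and the geometric progressions are examples of `v`. -/
theorem result :
    (∀ (v : ℕ → ℝ) (τ θ : ℝ), (∀ n, 1 ≤ v n) → 0 ≤ τ → ExpLe v τ → θ < 1 →
      ∀ (n : ℕ) (M : ℝ), 4 ≤ n → 10 / (3 * (n : ℝ) - 2) ≤ M →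
      ∃ E : Set ℝ, dimH E ≤
          ENNReal.ofReal (((3 * (n : ℝ) - 5) / ((3 * (n : ℝ) - 2) * M) + τ) / (1 - θ)) ∧
        ∀ a : ℝ, 0 < a → a ∉ E → ∃ k₀ : ℕ, ∀ k : ℕ, k₀ ≤ k → ∀ x : Fin n → ℤ, Admissible x →
          |(height x : ℝ) - a * v k| ≤ (v k) ^ θ → (height x : ℝ) ≤ (rad x : ℝ) ^ M) ∧
    (∀ (v : ℕ → ℝ) (τ θ M : ℝ), (∀ n, 1 ≤ v n) → 0 ≤ τ → ExpLe v τ → θ < 1 → 0 < M →
      ∃ E : Set ℝ, dimH E ≤ ENNReal.ofReal ((1 / M + τ) / (1 - θ)) ∧
        ∀ a : ℝ, 0 < a → a ∉ E → ∀ n : ℕ, 3 ≤ n → ∃ k₀ : ℕ, ∀ k : ℕ, k₀ ≤ k →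
          ∀ x : Fin n → ℤ, Admissible x →
          |(height x : ℝ) - a * v k| ≤ (v k) ^ θ → (height x : ℝ) ≤ (rad x : ℝ) ^ M) ∧
    (∀ (v : ℕ → ℝ) (τ θ : ℝ), (∀ n, 1 ≤ v n) → 0 ≤ τ → ExpLe v τ → θ < 1 →
      ∃ E : Set ℝ, dimH E ≤ ENNReal.ofReal (τ / (1 - θ)) ∧
        ∀ a : ℝ, 0 < a → a ∉ E → ∃ M : ℝ, 0 < M ∧ ∀ n : ℕ, 3 ≤ n → ∃ k₀ : ℕ, ∀ k : ℕ, k₀ ≤ k →
          ∀ x : Fin n → ℤ, Admissible x →
          |(height x : ℝ) - a * v k| ≤ (v k) ^ θ → (height x : ℝ) ≤ (rad x : ℝ) ^ M) ∧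
    (∀ (v : ℕ → ℝ) (τ θ : ℝ), (∀ n, 1 ≤ v n) → 0 ≤ τ → ExpLe v τ → θ < 1 →
      ∀ n : ℕ, 3 ≤ n →
      ∃ E : Set ℝ, dimH E ≤ ENNReal.ofReal ((((n : ℝ) - 1) / n + τ) / (1 - θ)) ∧
        ∀ a : ℝ, 0 < a → a ∉ E → ∃ k₀ : ℕ, ∀ k : ℕ, k₀ ≤ k → ∀ x : Fin n → ℤ, Admissible x →
          |(rad x : ℝ) - a * v k| ≤ (v k) ^ θ →
            Real.exp (Real.log (rad x) ^ 2) < (height x : ℝ)) ∧
    (∀ b : ℝ, 0 < b → ExpLe (fun n : ℕ => ((n : ℝ) + 1) ^ b) (1 / b)) ∧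
    (∀ b : ℝ, 1 < b → ExpLe (fun n : ℕ => b ^ n) 0) := by
  refine ⟨?_, ?_, ?_, ?_, fun b hb => Pool.Agent.Y854.GM.expLe_pow b hb,
    fun b hb => Pool.Agent.Y854.GM.expLe_geom b hb⟩
  · intro v τ θ hv hτ hE hθ n M hn hM
    have hn' : (4 : ℝ) ≤ n := by exact_mod_cast hn
    have hM0 : 0 < M := lt_of_lt_of_le (div_pos (by norm_num) (by linarith)) hM
    obtain ⟨E, h1, h2⟩ := Pool.Agent.Y854.GM.windows (Ex n M) (fun x => (height x : ℝ))
      hv hτ hE (div_nonneg (by linarith) (mul_nonneg (by linarith) hM0.le)) hθ (sparse4 hn hM)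
    refine ⟨E, h1, fun a ha haE => ?_⟩
    obtain ⟨k₀, hk⟩ := h2 a ha haE
    refine ⟨k₀, fun k hk0 x hx hw => ?_⟩
    by_contra hcon
    push Not at hcon
    exact absurd (hk k hk0 x ⟨hx, hcon⟩) (not_lt.2 hw)
  · intro v τ θ M hv hτ hE hθ hM
    obtain ⟨E, h1, h2⟩ := Pool.Agent.X286.Win.family₂ (fun i : {n : ℕ // 3 ≤ n} => Ex i.1 M)
      (fun i x => (height x : ℝ)) (by positivity) (fun i => sparse_all i hM) hv hτ hE hθ
    refine ⟨E, h1, fun a ha haE n hn => ?_⟩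
    obtain ⟨k₀, hk⟩ := h2 a ha haE ⟨n, hn⟩
    refine ⟨k₀, fun k hk0 x hx hw => ?_⟩
    by_contra hcon
    push Not at hcon
    exact absurd (hk k hk0 x ⟨hx, hcon⟩) (not_lt.2 hw)
  · intro v τ θ hv hτ hE hθ
    obtain ⟨E, h1, h2⟩ := Pool.Agent.X286.Win.some_member₂
      (fun (j : ℕ) (i : {n : ℕ // 3 ≤ n}) => Ex i.1 ((j : ℝ) + 1))
      (fun i x => (height x : ℝ)) (s := fun j : ℕ => 1 / ((j : ℝ) + 1)) (fun j => by positivity)
      tendsto_one_div_add_atTop_nhds_zero_nat (fun j i => sparse_all i (by positivity)) hv hτ hE hθ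
    refine ⟨E, h1, fun a ha haE => ?_⟩
    obtain ⟨j, hj⟩ := h2 a ha haE
    refine ⟨(j : ℝ) + 1, by positivity, fun n hn => ?_⟩
    obtain ⟨k₀, hk⟩ := hj ⟨n, hn⟩
    refine ⟨k₀, fun k hk0 x hx hw => ?_⟩
    by_contra hcon
    push Not at hcon
    exact absurd (hk k hk0 x ⟨hx, hcon⟩) (not_lt.2 hw)
  · intro v τ θ hv hτ hE hθ n hn
    have hn' : (3 : ℝ) ≤ n := by exact_mod_cast hn
    obtain ⟨E, h1, h2⟩ := Pool.Agent.Y854.GM.windows
      {x : Fin n → ℤ | Admissible x ∧ (height x : ℝ) ≤ Real.exp (Real.log (rad x) ^ 2)}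
      (fun x => (rad x : ℝ)) hv hτ hE (div_nonneg (by linarith) (by linarith)) hθ (sparseR hn)
    refine ⟨E, h1, fun a ha haE => ?_⟩
    obtain ⟨k₀, hk⟩ := h2 a ha haE
    refine ⟨k₀, fun k hk0 x hx hw => ?_⟩
    by_contra hcon
    push Not at hcon
    exact absurd (hk k hk0 x ⟨hx, hcon⟩) (not_lt.2 hw)

end Pool.Agent.Results.MP_7ecdd4_nt.NoExceptionsInWindows
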