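import Pool.Agent.Results.MP_7ecdd4_nt.CountByRadicalSharp
import Pool.Agent.X123.MT.Targets

/-!
# The strong `n`-conjecture for tuples near almost all targets

For almost all targets `ξ` the proximity of an admissible `n`-tuple `x` (non-zero pairwise coprime
integers with sum zero) to `ξ` is at most `log rad (product of any n - 1 of the entries)`, up to
`ε log max |x_i| + C`. For example for almost all `ξ` in `ℝ ^ (n - 2)`
`∏_{i ≤ n - 2} min (1, |ξ_i - x_i / x_n|) ≥ c H ^ (-ε) / rad (∏_{i ≠ j} x_i)` for every `j`, and the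
tuples for which the left side is as small as it can be for infinitely many `x`, that is
`H ^ (- (n - 1) + o (1))`, have `rad (∏_{i ≠ j} x_i) = H ^ (n - 1 + o (1))` for every `j`.
-/

set_option autoImplicit false

open MeasureTheory

namespace Pool.Agent.Results.MP_7ecdd4_nt.RadicalsNearTargets

open CountByRadicalSharp (Admissible radicalWithout TuplesWithout without)
open Pool.Agent.X123.MT

/-- `max |x_i|` -/
def height {n : ℕ} (x : Fin n → ℤ) : ℕ := Finset.univ.sup fun i => (x i).natAbs

lemma abs_le {n : ℕ} (x : Fin n → ℤ) (i : Fin n) : |(x i : ℝ)| ≤ (height x : ℝ) := by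
  have h : (x i).natAbs ≤ height x := Finset.le_sup (f := fun i => (x i).natAbs) (Finset.mem_univ i)
  have h2 : |(x i : ℝ)| = ((x i).natAbs : ℝ) := by
    rw [← Int.cast_abs, Int.abs_eq_natAbs]; simp
  rw [h2]
  exact_mod_cast h

lemma scale {V : Type*} {A : Set V} {w : V → ℝ} {e c : ℝ} (hc : 0 < c) (h : Cnt A w e) :
    Cnt A (fun x => c * w x) (e / c) := by
  intro δ hδ
  obtain ⟨C, hC⟩ := h (c * δ) (by positivity)
  refine ⟨C, fun t ht => ?_⟩
  have h1 := hC (t / c) (by positivity)
  have hset : {x | x ∈ A ∧ c * w x ≤ t} = {x | x ∈ A ∧ w x ≤ t / c} := by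
    ext x
    refine and_congr_right fun _ => ?_
    rw [le_div_iff₀ hc, mul_comm]
  rw [hset]
  refine ⟨h1.1, h1.2.trans (le_of_eq ?_)⟩
  congr 2
  field_simp

lemma cnt (n : ℕ) (hn : 3 ≤ n) (j : Fin n) (θ : ℝ) (h0 : 0 ≤ θ) (h1 : θ ≤ n) :
    Cnt {x : Fin n → ℤ | Admissible x ∧
      Real.log (radicalWithout x j : ℝ) ≤ θ * Real.log (height x : ℝ)}
      (fun x => Real.log (height x : ℝ)) θ := by
  intro δ hδ
  have hn0 : (0 : ℝ) < n := by
    have : 0 < n := by omega
    exact_mod_cast this
  have hn1 : (1 : ℝ) ≤ n := by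
    have : 1 ≤ n := by omega
    exact_mod_cast this
  obtain ⟨η, hη, C, hC, hW⟩ := without n hn (δ / n) (by positivity)
  refine ⟨C, fun t ht => ?_⟩
  obtain ⟨hfin, hcard⟩ := hW (Real.exp (n * t)) (Real.exp (θ * t))
    (Real.one_le_exp (by positivity))
    (Real.exp_le_exp.2 (mul_le_mul_of_nonneg_right h1 ht))
  have hsub : {x : Fin n → ℤ | x ∈ {x : Fin n → ℤ | Admissible x ∧
      Real.log (radicalWithout x j : ℝ) ≤ θ * Real.log (height x : ℝ)} ∧
      Real.log (height x : ℝ) ≤ t} ⊆ TuplesWithout n (Real.exp (θ * t))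
        (Real.exp ((1 + Real.log (Real.exp (n * t))) ^ (2 + η))) := by
    rintro x ⟨⟨hx1, hx2⟩, hx3⟩
    have hH : (0 : ℝ) < (height x : ℝ) := by
      have h3 := abs_le x j
      have h4 : 0 < |(x j : ℝ)| := abs_pos.2 (by exact_mod_cast hx1.1 j)
      linarith
    have hR : (0 : ℝ) < (radicalWithout x j : ℝ) := CountByRadicalSharp.radical_pos
    have hHt : (height x : ℝ) ≤ Real.exp t := (Real.log_le_iff_le_exp hH).1 hx3
    refine ⟨hx1, ⟨j, ?_⟩, fun i => ?_⟩
    · refine (Real.log_le_iff_le_exp hR).1 (hx2.trans (mul_le_mul_of_nonneg_left hx3 h0))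
    · refine (abs_le x i).trans (hHt.trans (Real.exp_le_exp.2 ?_))
      rw [Real.log_exp]
      have h5 : (1 : ℝ) ≤ 1 + n * t := by
        have : 0 ≤ (n : ℝ) * t := by positivity
        linarith
      calc t ≤ 1 + n * t := by nlinarith
        _ = (1 + n * t) ^ (1 : ℝ) := (Real.rpow_one _).symm
        _ ≤ (1 + n * t) ^ (2 + η) := Real.rpow_le_rpow_of_exponent_le h5 (by linarith)
  refine ⟨hfin.subset hsub, ?_⟩
  refine (Nat.cast_le.2 (Set.ncard_le_ncard hsub hfin)).trans (hcard.trans (le_of_eq ?_))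
  rw [mul_assoc, ← Real.exp_mul, ← Real.exp_add]
  congr 2
  field_simp
  ring

/-- **Theorem.** Let `n ≥ 3`. (1) For almost all targets, in the sense of `AlmostAllTargets`, and all
`ε > 0` there is `C` such that the proximity to the targets of every admissible `n`-tuple `x` is at
most `log rad (∏_{i ≠ j} x_i) + ε log max |x_i| + C` for every `j`. (2) This applies to the point
`(x_1 / x_n, …, x_(n-2) / x_n)` and almost all `ξ` in `ℝ ^ (n - 2)`. -/
theorem result (m : ℕ) (hm : 1 ≤ m) :
    AlmostAllTargets (fun L : (Fin (m + 2) → ℤ) → ℝ => ∀ ε : ℝ, 0 < ε → ∃ C : ℝ,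
      ∀ x : Fin (m + 2) → ℤ, Admissible x → ∀ j : Fin (m + 2),
        L x ≤ Real.log (radicalWithout x j : ℝ) + ε * Real.log (height x : ℝ) + C) ∧
    ∀ᵐ ξ : Fin m → ℝ, ∀ ε : ℝ, 0 < ε → ∃ C : ℝ, ∀ x : Fin (m + 2) → ℤ, Admissible x →
      ∀ j : Fin (m + 2),
        ∑ i : Fin m, max 0 (Real.log (1 / |ξ i - (x (Fin.castAdd 2 i) : ℝ) / x (Fin.last (m + 1))|)) ≤
          Real.log (radicalWithout x j : ℝ) + ε * Real.log (height x : ℝ) + C := by
  have hn : 3 ≤ m + 2 := by omega
  have hm0 : (0 : ℝ) < m := by exact_mod_cast (by omega : 0 < m)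
  have hm1 : (1 : ℝ) ≤ m := by exact_mod_cast hm
  have main : AlmostAllTargets (fun L : (Fin (m + 2) → ℤ) → ℝ => ∀ ε : ℝ, 0 < ε → ∃ C : ℝ,
      ∀ x : Fin (m + 2) → ℤ, Admissible x → ∀ j : Fin (m + 2),
        L x ≤ Real.log (radicalWithout x j : ℝ) + ε * Real.log (height x : ℝ) + C) := by
    refine almostAllTargets_of _ fun Y _ μ L hL => ?_
    obtain ⟨c, hc⟩ : ∃ c : ℝ, c = ((m : ℝ) + 1) / 2 := ⟨_, rfl⟩
    have hc0 : 0 < c := by rw [hc]; positivity
    have h1 : ∀ j : Fin (m + 2), ∀ᵐ y ∂μ, ∀ ε : ℝ, 0 < ε → ∃ C : ℝ,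
        ∀ x ∈ {x : Fin (m + 2) → ℤ | Admissible x},
          L x y ≤ max (Real.log (radicalWithout x j : ℝ) -
            ((2 : ℝ) - 2) * (c * Real.log (height x : ℝ)))
            ((2 - 2) * (c * Real.log (height x : ℝ))) + ε * (c * Real.log (height x : ℝ)) + C := by
      intro j
      have hcnt : ∀ θ : ℝ, 0 ≤ θ → θ ≤ (m + 1 : ℝ) → Cnt {x : Fin (m + 2) → ℤ | Admissible x ∧
          Real.log (radicalWithout x j : ℝ) ≤ θ * Real.log (height x : ℝ)}
          (fun x => c * Real.log (height x : ℝ)) (θ / c) := fun θ h2 h3 =>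
        scale hc0 (cnt (m + 2) hn j θ h2 (by push_cast; linarith))
      refine grid hL {x : Fin (m + 2) → ℤ | Admissible x}
        (fun x => Real.log (radicalWithout x j : ℝ)) (fun x => c * Real.log (height x : ℝ))
        (fun x => mul_nonneg hc0.le (Real.log_natCast_nonneg _)) (by norm_num) ?_ ?_ le_rfl
      · have h4 := hcnt ((m : ℝ) + 1) (by positivity) le_rfl
        have h5 : ((m : ℝ) + 1) / c = 2 := by rw [hc]; field_simp
        rw [h5] at h4
        have h6 : {x : Fin (m + 2) → ℤ | Admissible x ∧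
            Real.log (radicalWithout x j : ℝ) ≤ ((m : ℝ) + 1) * Real.log (height x : ℝ)} =
            {x : Fin (m + 2) → ℤ | Admissible x} := by
          ext x
          refine ⟨fun h => h.1, fun h => ⟨h, ?_⟩⟩
          have hH : (0 : ℝ) < (height x : ℝ) := by
            have h3 := abs_le x j
            have h4 : 0 < |(x j : ℝ)| := abs_pos.2 (by exact_mod_cast h.1 j)
            linarith
          have h7 : radicalWithout x j ≤ (height x) ^ (m + 1) := by
            calc radicalWithout x j ≤ (∏ i ∈ Finset.univ.erase j, x i).natAbs :=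
                  Nat.le_of_dvd (Int.natAbs_pos.2 (Finset.prod_ne_zero_iff.2 fun i _ => h.1 i))
                    (Nat.prod_primeFactors_dvd _)
              _ = ∏ i ∈ Finset.univ.erase j, (x i).natAbs := map_prod Int.natAbsHom _ _
              _ ≤ ∏ _i ∈ Finset.univ.erase j, height x := Finset.prod_le_prod' fun i _ =>
                  Finset.le_sup (f := fun i => (x i).natAbs) (Finset.mem_univ i)
              _ = (height x) ^ (m + 1) := by
                  rw [Finset.prod_const, Finset.card_erase_of_mem (Finset.mem_univ _),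
                    Finset.card_univ, Fintype.card_fin]
                  rfl
          calc Real.log (radicalWithout x j : ℝ) ≤ Real.log ((height x : ℝ) ^ (m + 1)) :=
                Real.log_le_log CountByRadicalSharp.radical_pos (by exact_mod_cast h7)
            _ = _ := by rw [Real.log_pow]; push_cast; ring
        rw [h6] at h4
        exact h4
      · intro κ hκ0 hκ2
        have h4 := hcnt ((2 - κ) * c) (mul_nonneg (by linarith) hc0.le) (by
          rw [hc]; nlinarith)
        rw [mul_div_assoc, div_self hc0.ne', mul_one] at h4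
        intro δ hδ
        obtain ⟨C, hC⟩ := h4 δ hδ
        refine ⟨C, fun t ht => ?_⟩
        obtain ⟨h7, h8⟩ := hC t ht
        have hsub : {x : Fin (m + 2) → ℤ | x ∈ {x : Fin (m + 2) → ℤ |
            x ∈ {x : Fin (m + 2) → ℤ | Admissible x} ∧ Real.log (radicalWithout x j : ℝ) <
              (2 - κ) * (c * Real.log (height x : ℝ))} ∧ c * Real.log (height x : ℝ) ≤ t} ⊆
            {x : Fin (m + 2) → ℤ | x ∈ {x : Fin (m + 2) → ℤ | Admissible x ∧
              Real.log (radicalWithout x j : ℝ) ≤ (2 - κ) * c * Real.log (height x : ℝ)} ∧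
              c * Real.log (height x : ℝ) ≤ t} := by
          rintro x ⟨⟨g1, g2⟩, g3⟩
          refine ⟨⟨g1, ?_⟩, g3⟩
          rw [mul_assoc]
          exact g2.le
        exact ⟨h7.subset hsub, (Nat.cast_le.2 (Set.ncard_le_ncard hsub h7)).trans h8⟩
    have h2 := ae_all_iff.2 h1
    filter_upwards [h2] with y hy ε hε
    have h3 : ∀ j : Fin (m + 2), ∃ C : ℝ, ∀ x : Fin (m + 2) → ℤ, Admissible x →
        L x y ≤ Real.log (radicalWithout x j : ℝ) + ε * Real.log (height x : ℝ) + C := by
      intro j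
      obtain ⟨C, hC⟩ := hy j (ε / c) (by positivity)
      refine ⟨C, fun x hx => (hC x hx).trans (le_of_eq ?_)⟩
      have h4 : 0 ≤ Real.log (radicalWithout x j : ℝ) := Real.log_natCast_nonneg _
      rw [sub_self, zero_mul, sub_zero, max_eq_left h4]
      congr 2
      field_simp
    choose C hC using h3
    refine ⟨∑ j, |C j|, fun x hx j => (hC j x hx).trans ?_⟩
    have h5 : C j ≤ ∑ j, |C j| := (le_abs_self _).trans
      (Finset.single_le_sum (f := fun j => |C j|) (fun i _ => abs_nonneg _) (Finset.mem_univ j))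
    linarith
  refine ⟨main, ?_⟩
  exact real_targets _ main m fun i x => (x (Fin.castAdd 2 i) : ℝ) / x (Fin.last (m + 1))

end Pool.Agent.Results.MP_7ecdd4_nt.RadicalsNearTargets
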