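import Pool.Agent.X61.RS.Thr
import Pool.Agent.Results.MP_be1fae_nt.RandomPrimeSets

/-!
# The n-conjecture and random sets of primes: the threshold

A random set `T` of `k` primes up to `N` divides no pairwise coprime `n`-tuple with sum zero, of polynomial height,
with radical at most `Y` outside `T`, if `k ^ n Y ≤ N ^ (1 - δ)`. For almost all primes `p` every such tuple divisible by
`p` has radical at least `p ^ (2 - δ)`, which is sharp.
-/

set_option autoImplicit false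

namespace Pool.Agent.Results.MP_7ecdd4_nt.RandomPrimesThreshold

open Finset

/-- admissible tuples: nonzero, pairwise coprime, with sum zero -/
def Admissible {n : ℕ} (x : Fin n → ℤ) : Prop :=
  (∀ i, x i ≠ 0) ∧ (∀ i j, i ≠ j → IsCoprime (x i) (x j)) ∧ ∑ i, x i = 0

/-- the product of the primes outside `S` dividing `x_1 ⋯ x_n`; for `S = ∅` the radical of `x_1 ⋯ x_n` -/
def outer {n : ℕ} (S : Finset ℕ) (x : Fin n → ℤ) : ℕ :=
  ∏ p ∈ (∏ i, (x i).natAbs).primeFactors \ S, p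

/-- some admissible `n`-tuple with entries of absolute value at most `H` has an entry divisible by a prime of `T`, and the
product of the primes outside `S₀ ∪ T` dividing its entries is at most `Y` -/
def Exceptional (n : ℕ) (H : ℝ) (S₀ T : Finset ℕ) (Y : ℝ) : Prop :=
  ∃ x : Fin n → ℤ, Admissible x ∧ (∀ i, |(x i : ℝ)| ≤ H) ∧ (outer (S₀ ∪ T) x : ℝ) ≤ Y ∧
    ∃ p ∈ T, ∃ i, (p : ℤ) ∣ x i

/-- the primes up to `N` outside `S₀` -/
def primesUpTo (S₀ : Finset ℕ) (N : ℕ) : Finset ℕ :=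
  (range (N + 1)).filter (fun p => p.Prime ∧ p ∉ S₀)

section aux

open Pool.Agent.X61.RS Pool.Agent.X61.RS.Thr

theorem exc_bad {n : ℕ} {H : ℝ} {S₀ T : Finset ℕ} {Y : ℝ} (h : Exceptional n H S₀ T Y) :
    Bad n ⌊H⌋₊ S₀ T Y := by
  obtain ⟨x, ⟨h1, h2, h3⟩, hH, hY, p, hp, i, hi⟩ := h
  refine ⟨x, ⟨fun i => ⟨h1 i, ?_⟩, h2, h3⟩, hY, p, hp, ?_⟩
  · refine Nat.le_floor ?_
    have := hH i
    rwa [Nat.cast_natAbs, Int.cast_abs]
  · have : p ∣ (x i).natAbs := Int.natCast_dvd.1 hi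
    exact this.trans (dvd_prod_of_mem _ (mem_univ i))

open Classical in
theorem part1 (n : ℕ) (hn : 2 ≤ n) {ε : ℝ} (hε : 0 < ε) : ∃ C : ℝ, 0 < C ∧
    ∀ (H : ℝ) (N k : ℕ) (S₀ P : Finset ℕ) (Y : ℝ), 1 ≤ H → (∀ p ∈ S₀, p.Prime) →
      (∀ p ∈ P, p.Prime ∧ p ≤ N ∧ p ∉ S₀) → 1 ≤ Y →
      (((P.powersetCard k).filter (fun T => Exceptional n H S₀ T Y)).card : ℝ) * (P.card : ℝ) ^ n ≤
        C * H ^ ε * (Y * ((∏ p ∈ S₀, p : ℕ) : ℝ)) * ((N : ℝ) ^ (n - 1) * (k : ℝ) ^ n) *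
          P.card.choose k := by
  obtain ⟨C, hC, h⟩ := nset_count n hn hε
  refine ⟨C, hC, fun H N k S₀ P Y hH h₀ hP hY => ?_⟩
  have h1 := h ⌊H⌋₊ N k S₀ P Y (Nat.le_floor (by exact_mod_cast hH)) h₀ hP hY
  have h2 : (((P.powersetCard k).filter (fun T => Exceptional n H S₀ T Y)).card : ℝ) ≤
      (((P.powersetCard k).filter (fun T => Bad n ⌊H⌋₊ S₀ T Y)).card : ℝ) := by
    have : (P.powersetCard k).filter (fun T => Exceptional n H S₀ T Y) ⊆
        (P.powersetCard k).filter (fun T => Bad n ⌊H⌋₊ S₀ T Y) := by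
      intro T hT
      rw [mem_filter] at hT ⊢
      exact ⟨hT.1, exc_bad hT.2⟩
    exact_mod_cast card_le_card this
  refine (mul_le_mul_of_nonneg_right h2 (by positivity)).trans (h1.trans ?_)
  have h3 : ((⌊H⌋₊ : ℕ) : ℝ) ^ ε ≤ H ^ ε :=
    Real.rpow_le_rpow (Nat.cast_nonneg _) (Nat.floor_le (by linarith)) hε.le
  gcongr

theorem primesUpTo_eq (S₀ : Finset ℕ) (N : ℕ) :
    primesUpTo S₀ N = Pool.Agent.Results.MP_be1fae_nt.RandomPrimeSets.primesUpTo S₀ N := rfl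

open Classical in
theorem part2 (n : ℕ) (hn : 2 ≤ n) (S₀ : Finset ℕ) (h₀ : ∀ p ∈ S₀, p.Prime) (A δ : ℝ) (hδ : 0 < δ)
    (hδ1 : δ < 1) : ∃ N₀ : ℕ, ∀ N : ℕ, N₀ ≤ N → ∀ (k : ℕ) (Y : ℝ), 1 ≤ Y →
      (k : ℝ) ^ n * Y ≤ (N : ℝ) ^ (1 - δ) →
      ((((primesUpTo S₀ N).powersetCard k).filter (fun T =>
        Exceptional n ((N : ℝ) ^ A) S₀ T Y)).card : ℝ) ≤
          (N : ℝ) ^ (-(δ / 2)) * ((primesUpTo S₀ N).powersetCard k).card := by
  have hn0 : (0 : ℝ) < n := by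
    have : 0 < n := by omega
    exact_mod_cast this
  set A' : ℝ := max A 1 with hA'
  have hA1 : 1 ≤ A' := le_max_right _ _
  obtain ⟨C, hC, h⟩ := part1 n hn (show 0 < δ / (8 * A') by positivity)
  obtain ⟨N₁, hN₁⟩ := Pool.Agent.Results.MP_be1fae_nt.RandomPrimeSets.card_primes S₀
    (show 0 < δ / (8 * n) by positivity) (by
      rw [div_lt_one (by positivity)]
      have : (1 : ℝ) ≤ n := by
        have : 1 ≤ n := by omega
        exact_mod_cast this
      linarith)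
  set W : ℝ := ((∏ p ∈ S₀, p : ℕ) : ℝ) with hW
  have hev := (tendsto_rpow_atTop (show 0 < δ / 4 by positivity)).eventually_ge_atTop (C * W)
  obtain ⟨x₀, hx₀⟩ := Filter.eventually_atTop.1 hev
  obtain ⟨N₂, hN₂⟩ := exists_nat_ge (max x₀ 1)
  refine ⟨max N₁ N₂, fun N hN k Y hY hkY => ?_⟩
  have hN1 : N₁ ≤ N := (le_max_left _ _).trans hN
  have hNx : max x₀ 1 ≤ N := hN₂.trans (by exact_mod_cast (le_max_right _ _).trans hN)
  have hNr : (1 : ℝ) ≤ N := (le_max_right _ _).trans hNx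
  have hN0 : (0 : ℝ) < N := by linarith
  have hDN : C * W ≤ (N : ℝ) ^ (δ / 4) := hx₀ _ ((le_max_left _ _).trans hNx)
  have hcard := hN₁ N hN1
  rw [← primesUpTo_eq] at hcard
  set P := primesUpTo S₀ N with hP
  have hPm : ∀ p ∈ P, p.Prime ∧ p ≤ N ∧ p ∉ S₀ := by
    intro p hp
    rw [hP, primesUpTo, mem_filter, mem_range] at hp
    exact ⟨hp.2.1, by omega, hp.2.2⟩
  have hHA : 1 ≤ (N : ℝ) ^ A' := Real.one_le_rpow hNr (by linarith)
  have h1 := h ((N : ℝ) ^ A') N k S₀ P Y hHA h₀ hPm hY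
  have hsub : (((P.powersetCard k).filter (fun T => Exceptional n ((N : ℝ) ^ A) S₀ T Y)).card : ℝ) ≤
      (((P.powersetCard k).filter (fun T => Exceptional n ((N : ℝ) ^ A') S₀ T Y)).card : ℝ) := by
    have : (P.powersetCard k).filter (fun T => Exceptional n ((N : ℝ) ^ A) S₀ T Y) ⊆
        (P.powersetCard k).filter (fun T => Exceptional n ((N : ℝ) ^ A') S₀ T Y) := by
      intro T hT
      rw [mem_filter] at hT ⊢
      obtain ⟨hT1, x, hx1, hx2, hx3⟩ := hT
      exact ⟨hT1, x, hx1, fun i => (hx2 i).trans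
        (Real.rpow_le_rpow_of_exponent_le hNr (le_max_left _ _)), hx3⟩
    exact_mod_cast card_le_card this
  have hPpos : (0 : ℝ) < P.card := lt_of_lt_of_le (by positivity) hcard
  have hPn : (N : ℝ) ^ ((n : ℝ) - δ / 8) ≤ (P.card : ℝ) ^ n := by
    calc (N : ℝ) ^ ((n : ℝ) - δ / 8) = ((N : ℝ) ^ (1 - δ / (8 * n))) ^ n := by
          rw [← Real.rpow_natCast, ← Real.rpow_mul hN0.le]
          congr 1
          field_simp
      _ ≤ _ := pow_le_pow_left₀ (by positivity) hcard n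
  have hNn : (N : ℝ) ^ (n - 1) = (N : ℝ) ^ ((n : ℝ) - 1) := by
    rw [← Real.rpow_natCast]
    congr 1
    rw [Nat.cast_sub (by omega)]
    simp
  rw [card_powersetCard]
  have hPnpos : (0 : ℝ) < (P.card : ℝ) ^ n := by positivity
  refine le_of_mul_le_mul_right ?_ hPnpos
  have hHε : ((N : ℝ) ^ A') ^ (δ / (8 * A')) = (N : ℝ) ^ (δ / 8) := by
    rw [← Real.rpow_mul hN0.le]
    congr 1
    field_simp
  rw [hHε] at h1
  calc (((P.powersetCard k).filter (fun T => Exceptional n ((N : ℝ) ^ A) S₀ T Y)).card : ℝ) *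
        (P.card : ℝ) ^ n
      ≤ (((P.powersetCard k).filter (fun T => Exceptional n ((N : ℝ) ^ A') S₀ T Y)).card : ℝ) *
        (P.card : ℝ) ^ n := mul_le_mul_of_nonneg_right hsub hPnpos.le
    _ ≤ C * (N : ℝ) ^ (δ / 8) * (Y * W) * ((N : ℝ) ^ (n - 1) * (k : ℝ) ^ n) * P.card.choose k := h1
    _ = (C * W) * (N : ℝ) ^ (δ / 8) * (N : ℝ) ^ ((n : ℝ) - 1) * ((k : ℝ) ^ n * Y) *
          P.card.choose k := by
        rw [hNn]
        ring
    _ ≤ (N : ℝ) ^ (δ / 4) * (N : ℝ) ^ (δ / 8) * (N : ℝ) ^ ((n : ℝ) - 1) * (N : ℝ) ^ (1 - δ) *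
          P.card.choose k := by
        gcongr
    _ = (N : ℝ) ^ (-(δ / 2)) * (N : ℝ) ^ ((n : ℝ) - δ / 8) * P.card.choose k := by
        rw [← Real.rpow_add hN0, ← Real.rpow_add hN0, ← Real.rpow_add hN0, ← Real.rpow_add hN0]
        congr 2
        ring
    _ ≤ (N : ℝ) ^ (-(δ / 2)) * (P.card : ℝ) ^ n * P.card.choose k := by
        gcongr
    _ = _ := by ring

open Classical in
theorem part3 (n : ℕ) (hn : 2 ≤ n) (M δ : ℝ) (hM : 0 < M) (hδ : 0 < δ) (hδ1 : δ < 1) :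
    ∃ N₀ : ℕ, ∀ N : ℕ, N₀ ≤ N →
      ((((range (N + 1)).filter Nat.Prime).filter (fun p : ℕ => ∃ x : Fin n → ℤ, Admissible x ∧
        (∃ i, (p : ℤ) ∣ x i) ∧ (∀ i, |(x i : ℝ)| ≤ (N : ℝ) ^ (M * (2 - 2 * δ))) ∧
        ∃ i, (outer ∅ x : ℝ) ^ M < |(x i : ℝ)|)).card : ℝ) ≤ 3 * (N : ℝ) ^ (1 - δ / 2) := by
  obtain ⟨N₀, hN₀⟩ := part2 n hn ∅ (fun p hp => absurd hp (notMem_empty p)) (M * (2 - 2 * δ)) δ hδ hδ1
  refine ⟨max N₀ 1, fun N hN => ?_⟩
  have hNr : (1 : ℝ) ≤ N := by exact_mod_cast (le_max_right _ _).trans hN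
  have hN0 : (0 : ℝ) < N := by linarith
  have hY : 1 ≤ (N : ℝ) ^ (1 - δ) := Real.one_le_rpow hNr (by linarith)
  have h1 := hN₀ N ((le_max_left _ _).trans hN) 1 ((N : ℝ) ^ (1 - δ)) hY (by simp)
  set P := primesUpTo ∅ N with hP
  set E := (P.powersetCard 1).filter (fun T =>
    Exceptional n ((N : ℝ) ^ (M * (2 - 2 * δ))) ∅ T ((N : ℝ) ^ (1 - δ))) with hE
  have hPN : (P.card : ℝ) ≤ N := by
    have : P.card ≤ N := by
      calc P.card ≤ (Icc 1 N).card := card_le_card fun p hp => by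
            rw [hP, primesUpTo, mem_filter, mem_range] at hp
            rw [mem_Icc]
            exact ⟨hp.2.1.one_le, by omega⟩
        _ = N := by rw [Nat.card_Icc]; omega
    exact_mod_cast this
  have h2 : (E.card : ℝ) ≤ (N : ℝ) ^ (1 - δ / 2) := by
    refine h1.trans ?_
    rw [card_powersetCard, Nat.choose_one_right]
    calc (N : ℝ) ^ (-(δ / 2)) * (P.card : ℝ) ≤ (N : ℝ) ^ (-(δ / 2)) * (N : ℝ) ^ (1 : ℝ) := by
          rw [Real.rpow_one]
          exact mul_le_mul_of_nonneg_left hPN (by positivity)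
      _ = _ := by
          rw [← Real.rpow_add hN0]
          congr 1
          ring
  -- the exceptional primes are small or give an exceptional set
  have hsub : ((range (N + 1)).filter Nat.Prime).filter (fun p : ℕ => ∃ x : Fin n → ℤ, Admissible x ∧
      (∃ i, (p : ℤ) ∣ x i) ∧ (∀ i, |(x i : ℝ)| ≤ (N : ℝ) ^ (M * (2 - 2 * δ))) ∧
        ∃ i, (outer ∅ x : ℝ) ^ M < |(x i : ℝ)|) ⊆
      range (⌊(N : ℝ) ^ (1 - δ / 2)⌋₊ + 1) ∪ (E.biUnion fun T : Finset ℕ => T) := by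
    intro p hp
    rw [mem_filter, mem_filter, mem_range] at hp
    obtain ⟨⟨hpN, hpp⟩, x, hx, ⟨i, hi⟩, hH, j, hj⟩ := hp
    rw [mem_union]
    by_cases hps : (p : ℝ) ≤ (N : ℝ) ^ (1 - δ / 2)
    · left
      rw [mem_range]
      have := Nat.le_floor hps
      omega
    · right
      push Not at hps
      rw [mem_biUnion]
      refine ⟨{p}, ?_, mem_singleton_self p⟩
      rw [hE, mem_filter, mem_powersetCard]
      refine ⟨⟨?_, card_singleton p⟩, x, hx, hH, ?_, p, mem_singleton_self p, i, hi⟩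
      · rw [singleton_subset_iff, hP, primesUpTo, mem_filter, mem_range]
        exact ⟨hpN, hpp, notMem_empty p⟩
      · -- the outer radical is small
        by_contra hcon
        push Not at hcon
        have hpr : (∏ i, (x i).natAbs) ≠ 0 :=
          prod_ne_zero_iff.2 fun i _ => Int.natAbs_ne_zero.2 (hx.1 i)
        have hpm : p ∈ (∏ i, (x i).natAbs).primeFactors := by
          have h3 : p ∣ (x i).natAbs := Int.natCast_dvd.1 hi
          exact Nat.mem_primeFactors.2 ⟨hpp, h3.trans (dvd_prod_of_mem _ (mem_univ i)), hpr⟩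
        have h4 : outer ∅ x = p * outer (∅ ∪ {p}) x := by
          unfold outer
          rw [empty_union, sdiff_empty, sdiff_singleton_eq_erase, mul_prod_erase _ (fun q => q) hpm]
        have h5 : (N : ℝ) ^ (2 - 2 * δ) ≤ (outer ∅ x : ℝ) := by
          rw [h4, Nat.cast_mul]
          calc (N : ℝ) ^ (2 - 2 * δ) ≤ (N : ℝ) ^ ((1 - δ / 2) + (1 - δ)) :=
                Real.rpow_le_rpow_of_exponent_le hNr (by linarith)
            _ = (N : ℝ) ^ (1 - δ / 2) * (N : ℝ) ^ (1 - δ) := Real.rpow_add hN0 _ _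
            _ ≤ _ := mul_le_mul hps.le hcon.le (by positivity) (Nat.cast_nonneg _)
        have h6 : (N : ℝ) ^ (M * (2 - 2 * δ)) ≤ (outer ∅ x : ℝ) ^ M := by
          rw [mul_comm, Real.rpow_mul hN0.le]
          exact Real.rpow_le_rpow (by positivity) h5 hM.le
        linarith [hH j]
  have h3 : ((E.biUnion fun T : Finset ℕ => T).card : ℝ) ≤ E.card := by
    have : (E.biUnion fun T : Finset ℕ => T).card ≤ E.card := by
      refine card_biUnion_le.trans ?_
      rw [card_eq_sum_ones]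
      refine sum_le_sum fun T hT => ?_
      rw [hE, mem_filter, mem_powersetCard] at hT
      exact hT.1.2.le
    exact_mod_cast this
  have h4 := card_le_card hsub
  have h5 := (h4.trans (card_union_le _ _))
  have h6 : ((((range (N + 1)).filter Nat.Prime).filter (fun p : ℕ => ∃ x : Fin n → ℤ, Admissible x ∧
      (∃ i, (p : ℤ) ∣ x i) ∧ (∀ i, |(x i : ℝ)| ≤ (N : ℝ) ^ (M * (2 - 2 * δ))) ∧
        ∃ i, (outer ∅ x : ℝ) ^ M < |(x i : ℝ)|)).card : ℝ) ≤
      ((⌊(N : ℝ) ^ (1 - δ / 2)⌋₊ + 1 : ℕ) : ℝ) + ((E.biUnion fun T : Finset ℕ => T).card : ℝ) := by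
    rw [card_range] at h5
    exact_mod_cast h5
  have h7 : ((⌊(N : ℝ) ^ (1 - δ / 2)⌋₊ : ℕ) : ℝ) ≤ (N : ℝ) ^ (1 - δ / 2) :=
    Nat.floor_le (by positivity)
  have h8 : 1 ≤ (N : ℝ) ^ (1 - δ / 2) := Real.one_le_rpow hNr (by linarith)
  push_cast at h6
  linarith

theorem part4 (n : ℕ) (hn : 3 ≤ n) (p : ℕ) (hp : p.Prime) (hpn : n ≤ p + 1) :
    ∃ x : Fin n → ℤ, Admissible x ∧ (∃ i, (p : ℤ) ∣ x i) ∧ (∀ i, |x i| ≤ p) ∧ outer ∅ x < p ^ 2 := by
  obtain ⟨m, rfl⟩ : ∃ m, n = m + 3 := ⟨n - 3, by omega⟩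
  have hpm : m + 1 < p := by omega
  have hcop : IsCoprime (p : ℤ) (-((p : ℤ) - (m + 1))) := by
    have h1 : Nat.Coprime p (m + 1) :=
      ((Nat.Prime.coprime_iff_not_dvd hp).2 fun h => absurd (Nat.le_of_dvd (by omega) h) (by omega))
    have h2 : IsCoprime (p : ℤ) ((m + 1 : ℕ) : ℤ) := Nat.isCoprime_iff_coprime.2 h1
    have h3 : IsCoprime (p : ℤ) (((m + 1 : ℕ) : ℤ) + p * (-1)) := h2.add_mul_left_right _
    convert h3 using 1
    push_cast
    ring
  have hone : ∀ z : ℤ, IsCoprime z (-1) := fun z => (isCoprime_one_right).neg_right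
  have hone' : ∀ z : ℤ, IsCoprime (-1) z := fun z => (hone z).symm
  refine ⟨Fin.cons (p : ℤ) (Fin.cons (-((p : ℤ) - (m + 1))) (fun _ : Fin (m + 1) => (-1 : ℤ))),
    ⟨?_, ?_, ?_⟩, ⟨0, ?_⟩, ?_, ?_⟩
  · intro i
    refine Fin.cases ?_ (fun i => ?_) i
    · rw [Fin.cons_zero]
      exact_mod_cast hp.ne_zero
    · rw [Fin.cons_succ]
      refine Fin.cases ?_ (fun i => ?_) i
      · rw [Fin.cons_zero]
        omega
      · rw [Fin.cons_succ]
        norm_num
  · intro i j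
    refine Fin.cases ?_ (fun i => ?_) i
    · refine Fin.cases (fun h => absurd rfl h) (fun j _ => ?_) j
      rw [Fin.cons_zero, Fin.cons_succ]
      refine Fin.cases ?_ (fun j => ?_) j
      · rw [Fin.cons_zero]
        exact hcop
      · rw [Fin.cons_succ]
        exact hone _
    · refine Fin.cases (fun _ => ?_) (fun j => ?_) j
      · rw [Fin.cons_zero, Fin.cons_succ]
        refine Fin.cases ?_ (fun i => ?_) i
        · rw [Fin.cons_zero]
          exact hcop.symm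
        · rw [Fin.cons_succ]
          exact hone' _
      · rw [Fin.cons_succ, Fin.cons_succ]
        refine Fin.cases (fun hij => ?_) (fun i _ => ?_) i
        · refine Fin.cases (fun hij => absurd rfl hij) (fun j _ => ?_) j hij
          · rw [Fin.cons_zero, Fin.cons_succ]
            exact hone _
        · rw [Fin.cons_succ]
          exact hone' _
  · rw [Fin.sum_univ_succ, Fin.sum_univ_succ]
    simp only [Fin.cons_zero, Fin.cons_succ, sum_const, card_univ, Fintype.card_fin, nsmul_eq_mul]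
    push_cast
    ring
  · rw [Fin.cons_zero]
  · intro i
    refine Fin.cases ?_ (fun i => ?_) i
    · rw [Fin.cons_zero, Nat.abs_cast]
    · rw [Fin.cons_succ]
      refine Fin.cases ?_ (fun i => ?_) i
      · rw [Fin.cons_zero, abs_le]
        omega
      · rw [Fin.cons_succ]
        have := hp.one_le
        rw [abs_le]
        omega
  · unfold outer
    rw [sdiff_empty, Fin.prod_univ_succ, Fin.prod_univ_succ]
    simp only [Fin.cons_zero, Fin.cons_succ, prod_const, Int.natAbs_neg, Int.natAbs_one, one_pow,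
      mul_one, Int.natAbs_natCast]
    have h1 : ((p : ℤ) - (m + 1)).natAbs = p - (m + 1) := by omega
    rw [h1]
    have h2 : 0 < p - (m + 1) := by omega
    refine (Nat.le_of_dvd (Nat.mul_pos hp.pos h2) (Nat.prod_primeFactors_dvd _)).trans_lt ?_
    rw [sq]
    exact Nat.mul_lt_mul_of_pos_left (by omega) hp.pos

end aux

open Classical in
/-- **Random sets of primes and the strong `n`-conjecture.** Let `n ≥ 3`. (1) The general estimate. (2) Let `A` be a real,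
`S₀` a finite set of primes and `0 < δ < 1`. For `N` large, and all `k`, `Y` with `k ^ n Y ≤ N ^ (1 - δ)`, all but a
proportion `N ^ (-δ / 2)` of the sets `T` of `k` primes up to `N` outside `S₀` have the following property: every admissible
tuple with entries at most `N ^ A` and divisible by a prime of `T` has the product of the primes outside `S₀ ∪ T` dividing
its entries larger than `Y`. (3) Let `M > 0`. For all but at most `3 N ^ (1 - δ / 2)` of the primes `p ≤ N`, every admissible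
tuple divisible by `p` with entries at most `N ^ (M (2 - 2 δ))` satisfies `max |x_i| ≤ rad ^ M`. (4) Every prime
`p ≥ n - 1` divides an admissible tuple with entries at most `p` and radical less than `p ^ 2`. -/
theorem result (n : ℕ) (hn : 3 ≤ n) :
    (∀ ε : ℝ, 0 < ε → ∃ C : ℝ, 0 < C ∧
      ∀ (H : ℝ) (N k : ℕ) (S₀ P : Finset ℕ) (Y : ℝ), 1 ≤ H → (∀ p ∈ S₀, p.Prime) →
        (∀ p ∈ P, p.Prime ∧ p ≤ N ∧ p ∉ S₀) → 1 ≤ Y →
        (((P.powersetCard k).filter (fun T => Exceptional n H S₀ T Y)).card : ℝ) * (P.card : ℝ) ^ n ≤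
          C * H ^ ε * (Y * ((∏ p ∈ S₀, p : ℕ) : ℝ)) * ((N : ℝ) ^ (n - 1) * (k : ℝ) ^ n) *
            P.card.choose k) ∧
    (∀ (S₀ : Finset ℕ), (∀ p ∈ S₀, p.Prime) → ∀ (A δ : ℝ), 0 < δ → δ < 1 →
      ∃ N₀ : ℕ, ∀ N : ℕ, N₀ ≤ N → ∀ (k : ℕ) (Y : ℝ), 1 ≤ Y →
        (k : ℝ) ^ n * Y ≤ (N : ℝ) ^ (1 - δ) →
        ((((primesUpTo S₀ N).powersetCard k).filter (fun T =>
          Exceptional n ((N : ℝ) ^ A) S₀ T Y)).card : ℝ) ≤
            (N : ℝ) ^ (-(δ / 2)) * ((primesUpTo S₀ N).powersetCard k).card) ∧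
    (∀ (M δ : ℝ), 0 < M → 0 < δ → δ < 1 → ∃ N₀ : ℕ, ∀ N : ℕ, N₀ ≤ N →
      ((((range (N + 1)).filter Nat.Prime).filter (fun p : ℕ => ∃ x : Fin n → ℤ, Admissible x ∧
        (∃ i, (p : ℤ) ∣ x i) ∧ (∀ i, |(x i : ℝ)| ≤ (N : ℝ) ^ (M * (2 - 2 * δ))) ∧
        ∃ i, (outer ∅ x : ℝ) ^ M < |(x i : ℝ)|)).card : ℝ) ≤ 3 * (N : ℝ) ^ (1 - δ / 2)) ∧
    (∀ p : ℕ, p.Prime → n ≤ p + 1 → ∃ x : Fin n → ℤ, Admissible x ∧ (∃ i, (p : ℤ) ∣ x i) ∧
      (∀ i, |x i| ≤ p) ∧ outer ∅ x < p ^ 2) :=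
  ⟨fun _ hε => part1 n (by omega) hε, fun S₀ h₀ A δ hδ hδ1 => part2 n (by omega) S₀ h₀ A δ hδ hδ1,
    fun M δ hM hδ hδ1 => part3 n (by omega) M δ hM hδ hδ1, fun p hp hpn => part4 n hn p hp hpn⟩

end Pool.Agent.Results.MP_7ecdd4_nt.RandomPrimesThreshold
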