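import Pool.Agent.X100.Nt.Cop

/-!
# The strong n-conjecture on every rational curve: tuples of any height, counted by their radical

A rational curve is given by `n ≥ 3` binary forms `P_j` of degree `D ≥ 1` with integral coefficients,
pairwise without common zeros; there is no condition on their zeros. All admissible `n`-tuples
(nonzero, pairwise coprime, with sum zero) on the curve, of whatever height, are counted by their
radical: at most `R ^ (3 / n + o(1))` of them have radical at most `R`.
-/

set_option autoImplicit false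

namespace Pool.Agent.Results.MP_7ecdd4_nt.RationalCurvesAllHeights

open Finset Polynomial

/-- the radical: the product of the primes dividing `m` -/
def radical (m : ℤ) : ℕ := ∏ p ∈ m.natAbs.primeFactors, p

/-- the admissible tuples of the problem: nonzero, pairwise coprime entries with sum zero -/
def Admissible {n : ℕ} (x : Fin n → ℤ) : Prop :=
  (∀ j, x j ≠ 0) ∧ (∀ i j, i ≠ j → IsCoprime (x i) (x j)) ∧ ∑ j, x j = 0

/-- the value at `(s, t)` of the binary form `∑ k, f_k s ^ k t ^ (D - k)` of degree `D` -/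
def value (f : ℤ[X]) (D : ℕ) (s t : ℤ) : ℤ :=
  ∑ k ∈ range (D + 1), f.coeff k * s ^ k * t ^ (D - k)

/-- the polynomials `P_j`, viewed as binary forms of degree `D ≥ 1`, have pairwise no common zero on
the projective line (the form given by `P_j` vanishes at infinity if its degree is less than `D`) -/
structure IsCurve {n : ℕ} (P : Fin n → ℤ[X]) (D : ℕ) : Prop where
  pos : 1 ≤ D
  degree : ∀ j, (P j).natDegree ≤ D
  coprime : ∀ i j, i ≠ j →
    IsCoprime ((P i).map (Int.castRingHom ℚ)) ((P j).map (Int.castRingHom ℚ))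
  infinity : ∀ i j, i ≠ j → (P i).natDegree = D ∨ (P j).natDegree = D

/-- the number of the distinct zeros, on the complex projective line, of the form of degree `D`
given by `f` -/
noncomputable def zeros (f : ℤ[X]) (D : ℕ) : ℕ :=
  (f.map (Int.castRingHom ℂ)).roots.toFinset.card + if f.natDegree = D then 0 else 1

/-- the admissible tuples on the curve with radical at most `R`; there is no condition on the
height -/
def Tuples {n : ℕ} (P : Fin n → ℤ[X]) (D : ℕ) (R : ℝ) : Set (Fin n → ℤ) :=
  {x | Admissible x ∧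
    (∃ s t : ℤ, IsCoprime s t ∧ ∀ i j, x i * value (P j) D s t = x j * value (P i) D s t) ∧
    (radical (∏ j, x j) : ℝ) ≤ R}

/-- those which violate `max |x_j| ≤ rad (x_1 ⋯ x_n) ^ M` -/
def Violating {n : ℕ} (P : Fin n → ℤ[X]) (D : ℕ) (M R : ℝ) : Set (Fin n → ℤ) :=
  {x | x ∈ Tuples P D R ∧ ∃ j, (radical (∏ j, x j) : ℝ) ^ M < |(x j : ℝ)|}

/-- for `R ≥ 1` at most `C R ^ θ (1 + log R) ^ e` admissible tuples on the curve have radical at
most `R`; in particular, for every `M` at most so many violate the inequality with exponent `M` -/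
def Bound {n : ℕ} (P : Fin n → ℤ[X]) (D : ℕ) (θ : ℝ) : Prop :=
  ∃ (C : ℝ) (e : ℕ), 0 < C ∧ ∀ R : ℝ, 1 ≤ R →
    (Tuples P D R).Finite ∧ ((Tuples P D R).ncard : ℝ) ≤ C * R ^ θ * (1 + Real.log R) ^ e ∧
    ∀ M : ℝ, (Violating P D M R).Finite ∧
      ((Violating P D M R).ncard : ℝ) ≤ C * R ^ θ * (1 + Real.log R) ^ e

theorem general {n : ℕ} (hn : 2 ≤ n) (D : ℕ) (P : Fin n → ℤ[X]) (hP : IsCurve P D) (g c : ℕ)
    (hg : 1 ≤ g) (B : Fin g → Finset (Fin n)) (hB : ∀ b, 3 ≤ ∑ i ∈ B b, zeros (P i) D)
    (hc : ∀ i, (univ.filter (fun b => i ∈ B b)).card ≤ c) : Bound P D ((c : ℝ) / g) := by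
  have hz : ∀ i j, i ≠ j → ∀ z : ℂ, aeval z (P i) ≠ 0 ∨ aeval z (P j) ≠ 0 := by
    intro i j hij z
    have h1 := (isCoprime_iff_aeval_ne_zero_of_isAlgClosed ℚ ℂ _ _).1 (hP.coprime i j hij) z
    rwa [X100.Nt.aeval_mapQ, X100.Nt.aeval_mapQ] at h1
  have h0 : ∀ j, P j ≠ 0 := by
    intro j hj
    obtain ⟨i, hi⟩ : ∃ i : Fin n, i ≠ j := by
      have : Nontrivial (Fin n) := Fin.nontrivial_iff_two_le.2 hn
      exact exists_ne j
    have h1 := hP.coprime i j hi
    rw [hj, Polynomial.map_zero, isCoprime_zero_right] at h1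
    have h2 := natDegree_eq_zero_of_isUnit h1
    rw [natDegree_map_eq_of_injective Int.cast_injective] at h2
    have h3 := hP.pos
    rcases hP.infinity i j hi with h4 | h4
    · omega
    · rw [hj, natDegree_zero] at h4
      omega
  obtain ⟨C, e, hC, H⟩ := X100.Nt.cop_tuples hn D hP.pos P hP.degree h0 hP.infinity hz g c hg B
    hB hc
  refine ⟨C, e, hC, fun R hR => ?_⟩
  have h1 : ∀ S ⊆ Tuples P D R, S.Finite ∧
      (S.ncard : ℝ) ≤ C * R ^ ((c : ℝ) / g) * (1 + Real.log R) ^ e :=
    fun S hS => H R hR S fun x hx => by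
      obtain ⟨⟨k1, k2, -⟩, k3, k4⟩ := hS hx
      refine ⟨fun u hu => ?_, prod_ne_zero_iff.2 fun j _ => k1 j, k3, k4⟩
      have h01 : (⟨0, by omega⟩ : Fin n) ≠ ⟨1, by omega⟩ := by
        intro h
        have := congrArg Fin.val h
        simp at this
      exact (k2 _ _ h01).isUnit_of_dvd' (hu _) (hu _)
  exact ⟨(h1 _ (le_refl _)).1, (h1 _ (le_refl _)).2, fun M => h1 _ fun x hx => hx.1⟩

theorem uniform {n : ℕ} (hn : 2 ≤ n) (D : ℕ) (P : Fin n → ℤ[X]) (hP : IsCurve P D) (q z : ℕ)
    (hq : q ≤ n) (hz : 3 ≤ q * z) (hB : ∀ i, z ≤ zeros (P i) D) : Bound P D ((q : ℝ) / n) := by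
  obtain ⟨B, h1, h2⟩ := X100.Nt.cyclic (n := n) (by omega) hq
  refine general hn D P hP n q (by omega) B (fun b => hz.trans ?_) h2
  calc q * z = (B b).card * z := by rw [h1]
    _ = ∑ _i ∈ B b, z := by rw [sum_const, smul_eq_mul]
    _ ≤ _ := sum_le_sum fun i _ => hB i

/-- **The strong n-conjecture on rational curves, tuples of all heights ordered by the radical.**
Let `n ≥ 3` and let `P_1, …, P_n` be integral binary forms of degree `D ≥ 1`, pairwise without
common zeros.
(1) There are `C` and `e` such that for all `R ≥ 1` at most `C R ^ (3 / n) (1 + log R) ^ e`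
admissible tuples on the curve, of whatever height, have radical at most `R`; in particular, for
every `M` at most so many violate `max |x_j| ≤ rad ^ M`.
(2) If every `P_j` has at least two distinct zeros, the exponent is `2 / n`.
(3) If every `P_j` has at least three distinct zeros, the exponent is `1 / n`.
(4) Let `B_1, …, B_g` be sets of the `P_j` such that the `P_j` in each set have together at least
three distinct zeros, and every `P_j` is in at most `c` sets. Then the exponent is `c / g`. -/
theorem result (n : ℕ) (hn : 3 ≤ n) (D : ℕ) (P : Fin n → ℤ[X]) (hP : IsCurve P D) :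
    Bound P D ((3 : ℝ) / n) ∧
    ((∀ j, 2 ≤ zeros (P j) D) → Bound P D ((2 : ℝ) / n)) ∧
    ((∀ j, 3 ≤ zeros (P j) D) → Bound P D ((1 : ℝ) / n)) ∧
    ∀ (g c : ℕ) (B : Fin g → Finset (Fin n)), 1 ≤ g → (∀ b, 3 ≤ ∑ i ∈ B b, zeros (P i) D) →
      (∀ i, (univ.filter (fun b => i ∈ B b)).card ≤ c) → Bound P D ((c : ℝ) / g) := by
  refine ⟨?_, fun h => ?_, fun h => ?_, fun g c B hg hB hc => general (by omega) D P hP g c hg B
    hB hc⟩
  · have h1 : ∀ i, 1 ≤ zeros (P i) D := by
      intro i
      unfold zeros
      by_cases h2 : (P i).natDegree = D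
      · rw [if_pos h2]
        have h3 : 0 < ((P i).map (Int.castRingHom ℂ)).degree := by
          rw [degree_map_eq_of_injective Int.cast_injective, ← natDegree_pos_iff_degree_pos, h2]
          exact hP.pos
        obtain ⟨z, hz⟩ := Complex.exists_root h3
        have h4 : z ∈ ((P i).map (Int.castRingHom ℂ)).roots.toFinset := by
          rw [Multiset.mem_toFinset, mem_roots (by
            intro h5
            rw [h5, degree_zero] at h3
            exact absurd h3 (by simp))]
          exact hz
        have := card_pos.2 ⟨z, h4⟩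
        omega
      · rw [if_neg h2]
        omega
    have := uniform (by omega) D P hP 3 1 hn (by omega) h1
    exact_mod_cast this
  · have := uniform (by omega) D P hP 2 2 (by omega) (by omega) h
    exact_mod_cast this
  · have := uniform (by omega) D P hP 1 3 (by omega) (by omega) h
    exact_mod_cast this

end Pool.Agent.Results.MP_7ecdd4_nt.RationalCurvesAllHeights
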